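import Pool.Agent.Helper584.PG.P_final_K

/-!
Constant perimeter of two-dimensional central sections characterises balls, in every dimension
at least three.
-/

set_option autoImplicit false

open MeasureTheory Set Filter Topology

noncomputable section

namespace Pool.Agent.Results.MP_f78f32_gt.TwoSections

/-- a unit vector orthogonal to a subspace of small dimension -/
theorem exists_perp {n : ℕ} (S : Submodule ℝ (EuclideanSpace ℝ (Fin n)))
    (h : Module.finrank ℝ S < n) : ∃ w : EuclideanSpace ℝ (Fin n), ‖w‖ = 1 ∧ ∀ x ∈ S, inner ℝ x w = (0:ℝ) := by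
  have h1 : Module.finrank ℝ S + Module.finrank ℝ Sᗮ = n := by
    rw [Submodule.finrank_add_finrank_orthogonal, finrank_euclideanSpace_fin]
  have h2 : Sᗮ ≠ ⊥ := by
    intro hb
    rw [hb, finrank_bot] at h1
    omega
  obtain ⟨w, hw, hw0⟩ := Submodule.exists_mem_ne_zero_of_ne_bot h2
  refine ⟨(‖w‖⁻¹ : ℝ) • w, ?_, ?_⟩
  · rw [norm_smul, norm_inv, norm_norm, inv_mul_cancel₀ (norm_ne_zero_iff.mpr hw0)]
  · intro x hx
    rw [inner_smul_right, (Submodule.mem_orthogonal S w).mp hw x hx, mul_zero]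

/-- any two vectors lie in the image of an isometric copy of three-space -/
theorem exists_iso {n : ℕ} (hn : 3 ≤ n) (u v : EuclideanSpace ℝ (Fin n)) :
    ∃ φ : EuclideanSpace ℝ (Fin 3) →ₗᵢ[ℝ] EuclideanSpace ℝ (Fin n),
      (∃ a, φ a = u) ∧ (∃ b, φ b = v) := by
  -- first vector
  obtain ⟨e0, h0, hu⟩ : ∃ e0 : EuclideanSpace ℝ (Fin n), ‖e0‖ = 1 ∧ ∃ c : ℝ, u = c • e0 := by
    by_cases hu : u = 0
    · obtain ⟨w, hw, -⟩ := exists_perp (⊥ : Submodule ℝ (EuclideanSpace ℝ (Fin n)))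
        (by rw [finrank_bot]; omega)
      exact ⟨w, hw, 0, by simp [hu]⟩
    · refine ⟨(‖u‖⁻¹ : ℝ) • u, ?_, ‖u‖, ?_⟩
      · rw [norm_smul, norm_inv, norm_norm, inv_mul_cancel₀ (norm_ne_zero_iff.mpr hu)]
      · rw [smul_smul, mul_inv_cancel₀ (norm_ne_zero_iff.mpr hu), one_smul]
  obtain ⟨c, hc⟩ := hu
  obtain ⟨e1, h1, h01, hv⟩ : ∃ e1 : EuclideanSpace ℝ (Fin n), ‖e1‖ = 1 ∧ inner ℝ e0 e1 = (0:ℝ) ∧
      ∃ a b : ℝ, v = a • e0 + b • e1 := by
    by_cases hv : v - (inner ℝ e0 v : ℝ) • e0 = 0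
    · obtain ⟨w, hw, hw'⟩ := exists_perp (Submodule.span ℝ {e0})
        (by
          have := finrank_span_singleton (K := ℝ) (v := e0) (by intro h; rw [h, norm_zero] at h0; exact zero_ne_one h0)
          omega)
      refine ⟨w, hw, hw' e0 (Submodule.mem_span_singleton_self e0), inner ℝ e0 v, 0, ?_⟩
      rw [zero_smul, add_zero]
      exact sub_eq_zero.mp hv
    · set d := v - (inner ℝ e0 v : ℝ) • e0 with hd
      refine ⟨(‖d‖⁻¹ : ℝ) • d, ?_, ?_, inner ℝ e0 v, ‖d‖, ?_⟩
      · rw [norm_smul, norm_inv, norm_norm, inv_mul_cancel₀ (norm_ne_zero_iff.mpr hv)]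
      · rw [inner_smul_right, hd, inner_sub_right, inner_smul_right, real_inner_self_eq_norm_sq, h0]
        ring
      · rw [smul_smul, mul_inv_cancel₀ (norm_ne_zero_iff.mpr hv), one_smul, hd]
        abel
  obtain ⟨a, b, hab⟩ := hv
  obtain ⟨e2, h2, h2'⟩ := exists_perp (Submodule.span ℝ {e0, e1}) (by
    have : Module.finrank ℝ (Submodule.span ℝ ({e0, e1} : Set (EuclideanSpace ℝ (Fin n)))) ≤ 2 := by
      have := finrank_span_le_card (R := ℝ) ({e0, e1} : Set (EuclideanSpace ℝ (Fin n)))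
      refine this.trans ?_
      rw [Set.toFinset_insert, Set.toFinset_singleton]
      exact Finset.card_le_two
    omega)
  have h02 : inner ℝ e0 e2 = (0:ℝ) := h2' e0 (Submodule.subset_span (by simp))
  have h12 : inner ℝ e1 e2 = (0:ℝ) := h2' e1 (Submodule.subset_span (by simp))
  have horth : Orthonormal ℝ ![e0, e1, e2] := by
    rw [orthonormal_iff_ite]
    intro i j
    fin_cases i <;> fin_cases j <;>
      simp [h01, h02, h12, real_inner_comm e0 e1, real_inner_comm e0 e2, real_inner_comm e1 e2, h0, h1, h2,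
        real_inner_self_eq_norm_sq]
  let B := (EuclideanSpace.basisFun (Fin 3) ℝ)
  let f : EuclideanSpace ℝ (Fin 3) →ₗ[ℝ] EuclideanSpace ℝ (Fin n) := B.toBasis.constr ℝ ![e0, e1, e2]
  have hf : f ∘ B.toBasis = ![e0, e1, e2] := by
    funext i
    simp only [Function.comp, f]
    rw [Module.Basis.constr_basis]
  have hB : Orthonormal ℝ B.toBasis := by
    rw [OrthonormalBasis.coe_toBasis]
    exact B.orthonormal
  let φ := f.isometryOfOrthonormal hB (by rw [hf]; exact horth)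
  have hφ : ∀ i, φ (B.toBasis i) = ![e0, e1, e2] i := by
    intro i
    have := congrFun hf i
    simpa [φ] using this
  refine ⟨φ, ⟨c • B.toBasis 0, ?_⟩, ⟨a • B.toBasis 0 + b • B.toBasis 1, ?_⟩⟩
  · rw [map_smul, hφ]; simp [hc]
  · rw [map_add, map_smul, map_smul, hφ, hφ]; simp [hab]

/-- perimeter transfer -/
theorem per_transfer {n : ℕ} (K : Set (EuclideanSpace ℝ (Fin n))) (hc : IsClosed K) (p : ENNReal)
    (hp : ∀ F : Submodule ℝ (EuclideanSpace ℝ (Fin n)), Module.finrank ℝ F = 2 →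
      Measure.hausdorffMeasure (1:ℝ) (frontier {x : F | (x : EuclideanSpace ℝ (Fin n)) ∈ K}) = p)
    (φ : EuclideanSpace ℝ (Fin 3) →ₗᵢ[ℝ] EuclideanSpace ℝ (Fin n))
    (e : EuclideanSpace ℝ (Fin 3)) (he : ‖e‖ = 1) :
    Measure.hausdorffMeasure (1:ℝ) (Pool.Agent.Helper584.PG.bd (φ ⁻¹' K) e) = p := by
  have he0 : e ≠ 0 := by intro h; rw [h, norm_zero] at he; exact zero_ne_one he
  -- the plane `e^⊥` and its image
  let P : Submodule ℝ (EuclideanSpace ℝ (Fin 3)) := (ℝ ∙ e)ᗮ
  have hP : Module.finrank ℝ P = 2 := by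
    have h1 := Submodule.finrank_add_finrank_orthogonal (ℝ ∙ e)
    rw [finrank_span_singleton he0, finrank_euclideanSpace_fin] at h1
    show Module.finrank ℝ (ℝ ∙ e)ᗮ = 2
    omega
  let F : Submodule ℝ (EuclideanSpace ℝ (Fin n)) := P.map φ.toLinearMap
  have hF : Module.finrank ℝ F = 2 := by
    rw [← hP]
    exact (LinearEquiv.finrank_eq (Submodule.equivMapOfInjective φ.toLinearMap φ.injective P)).symm
  rw [← hp F hF]
  -- isometry from the plane `P` to `F`
  let ι : P → EuclideanSpace ℝ (Fin 3) := Subtype.val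
  let κ : P → F := fun x => ⟨φ x, Submodule.mem_map_of_mem x.2⟩
  have hι : Isometry ι := isometry_subtype_coe
  have hκ : Isometry κ := by
    refine Isometry.of_dist_eq fun x y => ?_
    rw [Subtype.dist_eq, Subtype.dist_eq]
    exact φ.isometry.dist_eq _ _
  have hκs : Function.Surjective κ := by
    rintro ⟨y, hy⟩
    obtain ⟨x, hx, rfl⟩ := (Submodule.mem_map).mp hy
    exact ⟨⟨x, hx⟩, rfl⟩
  let H : P ≃ᵢ F := ⟨Equiv.ofBijective κ ⟨hκ.injective, hκs⟩, hκ⟩
  have hH : ∀ x : P, ((H x : F) : EuclideanSpace ℝ (Fin n)) = φ x := fun x => rfl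
  have hKP : IsClosed {x : P | φ x ∈ K} := by
    have : Continuous fun x : P => φ (x : EuclideanSpace ℝ (Fin 3)) :=
      φ.continuous.comp continuous_subtype_val
    exact hc.preimage this
  have e1 : frontier {x : P | φ x ∈ K} =
      H ⁻¹' (frontier {x : F | (x : EuclideanSpace ℝ (Fin n)) ∈ K}) := by
    have := H.toHomeomorph.preimage_frontier {x : F | (x : EuclideanSpace ℝ (Fin n)) ∈ K}
    exact this.symm
  have e2 : Pool.Agent.Helper584.PG.bd (φ ⁻¹' K) e = ι '' (frontier {x : P | φ x ∈ K}) := by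
    ext x
    simp only [Pool.Agent.Helper584.PG.bd, Set.mem_setOf_eq, Set.mem_image, Set.mem_preimage]
    have hmem : ∀ y : EuclideanSpace ℝ (Fin 3), y ∈ P ↔ inner ℝ y e = (0:ℝ) := by
      intro y
      show y ∈ (ℝ ∙ e)ᗮ ↔ _
      rw [Submodule.mem_orthogonal_singleton_iff_inner_left]
    constructor
    · rintro ⟨hx, hxe, hε⟩
      refine ⟨⟨x, (hmem x).mpr hxe⟩, ?_, rfl⟩
      rw [hKP.frontier_eq]
      refine ⟨hx, ?_⟩
      intro hin
      rw [mem_interior_iff_mem_nhds, Metric.mem_nhds_iff] at hin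
      obtain ⟨ε, hε0, hball⟩ := hin
      obtain ⟨y, hye, hyd, hyK⟩ := hε ε hε0
      exact hyK (hball (show (⟨y, (hmem y).mpr hye⟩ : P) ∈ Metric.ball _ ε from by
        rw [Metric.mem_ball, Subtype.dist_eq]; exact hyd))
    · rintro ⟨z, hz, rfl⟩
      rw [hKP.frontier_eq] at hz
      refine ⟨hz.1, (hmem _).mp z.2, ?_⟩
      intro ε hε
      by_contra hcon
      push Not at hcon
      apply hz.2
      rw [mem_interior_iff_mem_nhds, Metric.mem_nhds_iff]
      refine ⟨ε, hε, ?_⟩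
      intro y hy
      rw [Metric.mem_ball, Subtype.dist_eq] at hy
      exact hcon y ((hmem _).mp y.2) hy
  rw [e2, hι.hausdorffMeasure_image (Or.inl zero_le_one), e1, H.hausdorffMeasure_preimage]

/-- Constant perimeter of two-dimensional central sections characterises balls. -/
theorem result (n : ℕ) (hn : 3 ≤ n) (K : Set (EuclideanSpace ℝ (Fin n)))
    (hc : IsCompact K) (hconv : Convex ℝ K) (hint : (interior K).Nonempty)
    (hsym : ∀ x ∈ K, -x ∈ K) (p : ENNReal)
    (hp : ∀ F : Submodule ℝ (EuclideanSpace ℝ (Fin n)), Module.finrank ℝ F = 2 →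
      Measure.hausdorffMeasure (1:ℝ) (frontier {x : F | (x : EuclideanSpace ℝ (Fin n)) ∈ K}) = p) :
    ∃ r : ℝ, 0 < r ∧ K = Metric.closedBall 0 r := by
  -- the origin is interior
  have h0 : (0 : EuclideanSpace ℝ (Fin n)) ∈ interior K := by
    obtain ⟨x, hx⟩ := hint
    have hx' : -x ∈ K := hsym x (interior_subset hx)
    have := hconv.combo_interior_self_mem_interior hx hx' (a := 1/2) (b := 1/2) (by norm_num) (by norm_num) (by norm_num)
    have h2 : (1/2 : ℝ) • x + (1/2 : ℝ) • (-x) = 0 := by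
      rw [smul_neg]; abel
    rwa [h2] at this
  -- each three-dimensional section is a ball
  have key : ∀ φ : EuclideanSpace ℝ (Fin 3) →ₗᵢ[ℝ] EuclideanSpace ℝ (Fin n),
      ∃ r : ℝ, φ ⁻¹' K = Metric.closedBall (0 : EuclideanSpace ℝ (Fin 3)) r := by
    intro φ
    refine Pool.Agent.Helper584.PG.final_K (φ ⁻¹' K) ?_ ?_ ?_ ?_ p ?_
    · exact φ.isometry.isClosedEmbedding.isCompact_preimage hc
    · exact hconv.linear_preimage φ.toLinearMap
    · refine ⟨0, ?_⟩
      refine preimage_interior_subset_interior_preimage φ.continuous ?_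
      show φ 0 ∈ interior K
      rw [map_zero]; exact h0
    · intro x hx
      show φ (-x) ∈ K
      rw [map_neg]; exact hsym _ hx
    · intro e he
      exact per_transfer K hc.isClosed p hp φ e he
  -- membership depends only on the norm
  have hnorm : ∀ u v : EuclideanSpace ℝ (Fin n), u ∈ K → ‖v‖ ≤ ‖u‖ → v ∈ K := by
    intro u v hu huv
    obtain ⟨φ, ⟨a, rfl⟩, ⟨b, rfl⟩⟩ := exists_iso hn u v
    obtain ⟨r, hr⟩ := key φ
    have ha : a ∈ φ ⁻¹' K := hu
    rw [hr, Metric.mem_closedBall, dist_zero_right] at ha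
    show b ∈ φ ⁻¹' K
    rw [hr, Metric.mem_closedBall, dist_zero_right]
    rw [φ.norm_map, φ.norm_map] at huv
    exact huv.trans ha
  obtain ⟨u, hu, hmax⟩ := hc.exists_isMaxOn ⟨0, interior_subset h0⟩ continuous_norm.continuousOn
  obtain ⟨ε, hε, hball⟩ := Metric.mem_nhds_iff.mp (mem_interior_iff_mem_nhds.mp h0)
  refine ⟨‖u‖, ?_, ?_⟩
  · obtain ⟨w, hw, -⟩ := exists_perp (⊥ : Submodule ℝ (EuclideanSpace ℝ (Fin n)))
      (by rw [finrank_bot]; omega)
    have h1 : ((ε/2 : ℝ) • w) ∈ K := by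
      apply hball
      rw [Metric.mem_ball, dist_zero_right, norm_smul, hw, Real.norm_eq_abs, abs_of_pos (by positivity)]
      linarith
    have h2 := hmax h1
    simp only [Set.mem_setOf_eq] at h2
    rw [norm_smul, hw, Real.norm_eq_abs, abs_of_pos (by positivity)] at h2
    linarith
  · ext x
    rw [Metric.mem_closedBall, dist_zero_right]
    exact ⟨fun hx => hmax hx, fun hx => hnorm u x hu hx⟩

end Pool.Agent.Results.MP_f78f32_gt.TwoSections
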